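import Pool.Agent.K1H2.UB.Stm2

set_option autoImplicit false

open MeasureTheory Pool.Agent.K1H53.BI Pool.Agent.K1H2.UB Pool.Agent.H283R3.Newt

namespace Pool.Agent.K1H42.UB

theorem dist_pt_sq (w : Fin 3 → ℝ) (x : E3) : dist (pt w) x ^ 2 = q ((fun i => x i) - w) := by
  rw [EuclideanSpace.dist_eq, Real.sq_sqrt (Finset.sum_nonneg fun i _ => sq_nonneg _)]
  unfold q
  refine Finset.sum_congr rfl fun i _ => ?_
  show dist (w i) (x i) ^ 2 = (x i - w i) ^ 2
  rw [Real.dist_eq, sq_abs]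
  ring

theorem norm_sq (x : E3) : q (fun i => x i) = ‖x‖ ^ 2 := by
  rw [EuclideanSpace.norm_eq, Real.sq_sqrt (Finset.sum_nonneg fun i _ => sq_nonneg _)]
  unfold q
  refine Finset.sum_congr rfl fun i _ => ?_
  rw [Real.norm_eq_abs, sq_abs]

theorem norm_pt (w : Fin 3 → ℝ) : ‖pt w‖ = len w := by
  rw [EuclideanSpace.norm_eq]
  unfold len q
  congr 1
  refine Finset.sum_congr rfl fun i _ => ?_
  rw [Real.norm_eq_abs, sq_abs]
  rfl

theorem len_rv (z : V) : len (rv z) = nrm z := by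
  unfold len q nrm nsq rv
  congr 1
  push_cast
  refine Finset.sum_congr rfl fun i _ => ?_
  rw [Nat.cast_natAbs, Int.cast_abs, sq_abs]

theorem t_NEWT : S_NEWT := by
  intro hG N z hR
  obtain ⟨h1, h2, -, -, h5, -, h7⟩ := hG N z hR
  have hfar := hR.far
  have hbig := hR.big
  unfold dl at hbig
  have hζ : 0 < nrm z := by linarith [Real.sqrt_nonneg ((nsq z : ℕ) : ℝ), show nrm z = Real.sqrt (nsq z) from rfl]
  have hρ : rho N z = nrm z + 9 / 10 * (N - nrm z) := by
    unfold rho dl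
    ring
  have hρζ : nrm z < rho N z := by
    rw [hρ]
    linarith
  have hρ0 : 0 < rho N z := hζ.trans hρζ
  have hκ0 : 0 < kap N z := by linarith
  have hκ2 : 0 ≤ kap N z ^ 2 - 1 := by nlinarith
  have key : ∀ x : E3, (kap N z * dist (pt (rv z)) x) ^ 2 - dist (pt (zs N z)) x ^ 2 =
      (kap N z ^ 2 - 1) * (‖x‖ ^ 2 - rho N z ^ 2) := by
    intro x
    rw [mul_pow, dist_pt_sq, dist_pt_sq, h5, norm_sq]
  refine ⟨?_, ?_, ?_, ?_⟩
  · intro x hx hxb
    rw [mem_ball_zero_iff] at hxb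
    have hD1 : 0 < dist (pt (rv z)) x := dist_pos.2 fun h => hx h.symm
    have h8 : (kap N z * dist (pt (rv z)) x) ^ 2 ≤ dist (pt (zs N z)) x ^ 2 := by
      have h9 : ‖x‖ ^ 2 - rho N z ^ 2 ≤ 0 := by nlinarith [norm_nonneg x]
      have := key x
      nlinarith [mul_nonneg hκ2 (neg_nonneg.2 h9)]
    have h10 : kap N z * dist (pt (rv z)) x ≤ dist (pt (zs N z)) x :=
      le_of_sq_le_sq h8 dist_nonneg
    have hD2 : 0 < dist (pt (zs N z)) x := lt_of_lt_of_le (mul_pos hκ0 hD1) h10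
    unfold gv
    rw [sub_nonneg, ← div_eq_mul_inv, ← one_div, div_le_div_iff₀ hD2 hD1, one_mul]
    exact h10
  · intro x hx hxb
    rw [mem_ball_zero_iff, not_lt] at hxb
    have hD2 : 0 < dist (pt (zs N z)) x := dist_pos.2 fun h => hx h.symm
    have h8 : dist (pt (zs N z)) x ^ 2 ≤ (kap N z * dist (pt (rv z)) x) ^ 2 := by
      have h9 : 0 ≤ ‖x‖ ^ 2 - rho N z ^ 2 := by nlinarith [norm_nonneg x]
      have := key x
      nlinarith [mul_nonneg hκ2 h9]
    have h10 : dist (pt (zs N z)) x ≤ kap N z * dist (pt (rv z)) x :=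
      le_of_sq_le_sq h8 (mul_nonneg hκ0.le dist_nonneg)
    have hD1 : 0 < dist (pt (rv z)) x := by
      by_contra h
      have h11 : dist (pt (rv z)) x = 0 := le_antisymm (not_lt.1 h) dist_nonneg
      rw [h11, mul_zero] at h10
      linarith
    unfold gv
    rw [sub_nonpos, ← div_eq_mul_inv, ← one_div, div_le_div_iff₀ hD1 hD2, one_mul]
    exact h10
  · exact (kern_int hρ0 0 _).sub ((kern_int hρ0 0 _).const_mul _)
  · unfold gv
    rw [integral_sub (kern_int hρ0 0 _) ((kern_int hρ0 0 _).const_mul _), integral_const_mul,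
      ball_pot hρ0, ball_pot hρ0, dist_zero_right, dist_zero_right, norm_pt, norm_pt, len_rv, h7]
    have h12 : rho N z ≤ rho N z ^ 2 / nrm z := by
      rw [le_div_iff₀ hζ]
      nlinarith
    unfold Nn
    rw [if_pos hρζ, if_neg (not_lt.2 h12)]
    unfold kap
    have := hζ.ne'
    have := hρ0.ne'
    field_simp
    ring

end Pool.Agent.K1H42.UB
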